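import Mathlib

/-!
# A binomial variable with integer mean `n = D / κ` exceeds its mean with probability at most one half
-/

namespace Pool.Agent.Helper72.BinHalf

/-- tail of the binomial law: `bt D m p = P(Bin(D, p) ≥ m)` -/
def bt : ℕ → ℕ → ℝ → ℝ
  | _, 0, _ => 1
  | 0, _ + 1, _ => 0
  | D + 1, m + 1, p => p * bt D m p + (1 - p) * bt D (m + 1) p

/-- the point probabilities -/
noncomputable def bp (D m : ℕ) (p : ℝ) : ℝ := (D.choose m : ℝ) * p ^ m * (1 - p) ^ (D - m)

theorem bt_zero (D : ℕ) (p : ℝ) : bt D 0 p = 1 := by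
  cases D <;> simp [bt]

theorem bt_zero_succ (m : ℕ) (p : ℝ) : bt 0 (m + 1) p = 0 := by
  simp [bt]

theorem bt_succ_succ (D m : ℕ) (p : ℝ) :
    bt (D + 1) (m + 1) p = p * bt D m p + (1 - p) * bt D (m + 1) p := by
  simp [bt]

theorem bp_zero_zero (p : ℝ) : bp 0 0 p = 1 := by simp [bp]

theorem bp_zero_succ (m : ℕ) (p : ℝ) : bp 0 (m + 1) p = 0 := by simp [bp]

theorem bp_succ_zero (D : ℕ) (p : ℝ) : bp (D + 1) 0 p = (1 - p) * bp D 0 p := by
  simp [bp, pow_succ]; ring

theorem bp_succ_succ (D m : ℕ) (p : ℝ) :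
    bp (D + 1) (m + 1) p = p * bp D m p + (1 - p) * bp D (m + 1) p := by
  unfold bp
  rcases Nat.lt_trichotomy D m with h | h | h
  · rw [Nat.choose_eq_zero_of_lt (show D + 1 < m + 1 by omega), Nat.choose_eq_zero_of_lt h,
      Nat.choose_eq_zero_of_lt (show D < m + 1 by omega)]
    simp
  · subst h
    rw [Nat.choose_eq_zero_of_lt (show D < D + 1 by omega)]
    simp [pow_succ]; ring
  · obtain ⟨k, rfl⟩ : ∃ k, D = m + 1 + k := ⟨D - (m + 1), by omega⟩
    rw [Nat.choose_succ_succ, show m + 1 + k + 1 - (m + 1) = k + 1 by omega,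
      show m + 1 + k - m = k + 1 by omega, show m + 1 + k - (m + 1) = k by omega]
    push_cast
    ring

theorem bt_sub (D m : ℕ) (p : ℝ) : bt D m p - bt D (m + 1) p = bp D m p := by
  induction D generalizing m with
  | zero =>
    cases m with
    | zero => simp [bt_zero, bt_zero_succ, bp_zero_zero]
    | succ m => simp [bt_zero_succ, bp_zero_succ]
  | succ D ih =>
    cases m with
    | zero =>
      rw [bt_zero, bt_succ_succ, bp_succ_zero, ← ih 0, bt_zero]
      ring
    | succ m =>
      rw [bt_succ_succ, bt_succ_succ, bp_succ_succ, ← ih m, ← ih (m + 1)]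
      ring

theorem bt_hasDerivAt (D m : ℕ) (p : ℝ) :
    HasDerivAt (fun p => bt (D + 1) (m + 1) p) ((D + 1 : ℝ) * bp D m p) p := by
  induction D generalizing m with
  | zero =>
    cases m with
    | zero =>
      have : (fun p : ℝ => bt (0 + 1) (0 + 1) p) = fun p => p := by
        funext p; rw [bt_succ_succ, bt_zero, bt_zero_succ]; ring
      rw [this, bp_zero_zero]
      simpa using hasDerivAt_id' p
    | succ m =>
      have : (fun p : ℝ => bt (0 + 1) (m + 1 + 1) p) = fun _ => (0 : ℝ) := by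
        funext p; rw [bt_succ_succ, bt_zero_succ, bt_zero_succ]; ring
      rw [this, bp_zero_succ]
      simpa using hasDerivAt_const p (0 : ℝ)
  | succ D ih =>
    have hf : (fun p : ℝ => bt (D + 1 + 1) (m + 1) p)
        = fun p => p * bt (D + 1) m p + (1 - p) * bt (D + 1) (m + 1) p := by
      funext p; rw [bt_succ_succ]
    have h1 : HasDerivAt (fun p : ℝ => (1 - p)) (-1) p := by
      simpa using (hasDerivAt_id' p).const_sub 1
    have h2 := h1.mul (ih m)
    rw [hf]
    cases m with
    | zero =>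
      have h3 : HasDerivAt (fun p : ℝ => p * bt (D + 1) 0 p) 1 p := by
        have : (fun p : ℝ => p * bt (D + 1) 0 p) = fun p => p := by
          funext p; rw [bt_zero]; ring
        rw [this]; exact hasDerivAt_id' p
      have h4 := h3.add h2
      refine h4.congr_deriv ?_
      have h5 := bt_sub (D + 1) 0 p
      rw [bt_zero] at h5
      rw [bp_succ_zero] at h5 ⊢
      push_cast
      linear_combination h5
    | succ m =>
      have h3 := (hasDerivAt_id' p).mul (ih m)
      have h4 := h3.add h2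
      refine h4.congr_deriv ?_
      have h5 := bt_sub (D + 1) (m + 1) p
      rw [bp_succ_succ] at h5 ⊢
      push_cast
      linear_combination h5

theorem bp_nonneg (D m : ℕ) {p : ℝ} (h0 : 0 ≤ p) (h1 : p ≤ 1) : 0 ≤ bp D m p := by
  unfold bp
  have : 0 ≤ 1 - p := by linarith
  positivity

theorem bt_le_one (D m : ℕ) {p : ℝ} (h0 : 0 ≤ p) (h1 : p ≤ 1) : bt D m p ≤ 1 := by
  induction m with
  | zero => rw [bt_zero]
  | succ m ih =>
    have := bt_sub D m p
    have h2 := bp_nonneg D m h0 h1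
    linarith

theorem bt_at_zero (D m : ℕ) : bt D (m + 1) 0 = 0 := by
  induction D with
  | zero => rw [bt_zero_succ]
  | succ D ih => rw [bt_succ_succ, ih]; ring

theorem bt_mono (D m : ℕ) {p q : ℝ} (h0 : 0 ≤ p) (hpq : p ≤ q) (h1 : q ≤ 1) :
    bt (D + 1) (m + 1) p ≤ bt (D + 1) (m + 1) q := by
  have hm : MonotoneOn (fun p => bt (D + 1) (m + 1) p) (Set.Icc 0 1) := by
    apply monotoneOn_of_deriv_nonneg (convex_Icc 0 1)
    · exact fun x _ => (bt_hasDerivAt D m x).continuousAt.continuousWithinAt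
    · exact fun x _ => (bt_hasDerivAt D m x).differentiableAt.differentiableWithinAt
    · intro x hx
      rw [interior_Icc] at hx
      rw [(bt_hasDerivAt D m x).deriv]
      have := bp_nonneg D m hx.1.le hx.2.le
      positivity
  exact hm ⟨h0, hpq.trans h1⟩ ⟨h0.trans hpq, h1⟩ hpq

/-- `artanh t / t` is increasing. -/
theorem artanh_cmp {s t : ℝ} (ht : 0 ≤ t) (hts : t ≤ s) (hs : s < 1) :
    s * (Real.log (1 + t) - Real.log (1 - t)) ≤ t * (Real.log (1 + s) - Real.log (1 - s)) := by
  have hs0 : 0 ≤ s := ht.trans hts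
  have h1 := (Real.hasSum_log_sub_log_of_abs_lt_one
    (show |t| < 1 by rw [abs_of_nonneg ht]; linarith)).mul_left s
  have h2 := (Real.hasSum_log_sub_log_of_abs_lt_one
    (show |s| < 1 by rw [abs_of_nonneg hs0]; linarith)).mul_left t
  refine hasSum_le (fun k => ?_) h1 h2
  have h3 : t ^ (2 * k) ≤ s ^ (2 * k) := pow_le_pow_left₀ ht hts _
  have h4 : s * (2 * (1 / (2 * (k : ℝ) + 1)) * t ^ (2 * k + 1))
      = (2 * (1 / (2 * (k : ℝ) + 1)) * (s * t)) * t ^ (2 * k) := by ring
  have h5 : t * (2 * (1 / (2 * (k : ℝ) + 1)) * s ^ (2 * k + 1))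
      = (2 * (1 / (2 * (k : ℝ) + 1)) * (s * t)) * s ^ (2 * k) := by ring
  rw [h4, h5]
  exact mul_le_mul_of_nonneg_left h3 (by positivity)

/-- comparison of `p ^ n (1 - p) ^ N` on the two sides of the mode -/
theorem mode_cmp (n N : ℕ) (hn : 1 ≤ n) (hN : n ≤ N) {x : ℝ} (hx0 : 0 ≤ x)
    (hx : x ≤ (n : ℝ) / (n + N)) :
    ((n : ℝ) / (n + N) - x) ^ n * (1 - ((n : ℝ) / (n + N) - x)) ^ N
      ≤ ((n : ℝ) / (n + N) + x) ^ n * (1 - ((n : ℝ) / (n + N) + x)) ^ N := by
  have hn' : (0 : ℝ) < n := by exact_mod_cast hn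
  have hnN : (n : ℝ) ≤ N := by exact_mod_cast hN
  have hN' : (0 : ℝ) < N := lt_of_lt_of_le hn' hnN
  have hsum : (0 : ℝ) < (n : ℝ) + N := by linarith
  set M : ℝ := (n : ℝ) / (n + N) with hM
  have hM0 : 0 < M := by positivity
  have hM1 : 1 - M = (N : ℝ) / (n + N) := by rw [hM]; field_simp; ring
  have hMle : M ≤ 1 - M := by
    rw [hM1, hM]; exact div_le_div_of_nonneg_right hnN hsum.le
  have h1M : 0 < 1 - M := by linarith
  have hnonneg : 0 ≤ (M + x) ^ n * (1 - (M + x)) ^ N := by
    have : 0 ≤ 1 - (M + x) := by linarith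
    positivity
  rcases hx.eq_or_lt with hxe | hxl
  · rw [hxe, sub_self, zero_pow (by omega), zero_mul]
    rw [hxe] at hnonneg
    exact hnonneg
  · set s : ℝ := x / M with hs
    set t : ℝ := x / (1 - M) with ht
    have ht0 : 0 ≤ t := by positivity
    have hts : t ≤ s := div_le_div_of_nonneg_left hx0 hM0 hMle
    have hs1 : s < 1 := by rw [hs, div_lt_one hM0]; exact hxl
    have hs0 : 0 ≤ s := ht0.trans hts
    have ht1 : t < 1 := lt_of_le_of_lt hts hs1
    have e1 : M + x = M * (1 + s) := by rw [hs]; field_simp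
    have e2 : M - x = M * (1 - s) := by rw [hs]; field_simp
    have e3 : 1 - (M + x) = (1 - M) * (1 - t) := by rw [ht]; field_simp; ring
    have e4 : 1 - (M - x) = (1 - M) * (1 + t) := by rw [ht]; field_simp; ring
    rw [e3, e4, e1, e2, mul_pow, mul_pow, mul_pow, mul_pow]
    have key : (1 - s) ^ n * (1 + t) ^ N ≤ (1 + s) ^ n * (1 - t) ^ N := by
      have p1 : 0 < 1 - s := by linarith
      have p2 : 0 < 1 + s := by linarith
      have p3 : 0 < 1 - t := by linarith
      have p4 : 0 < 1 + t := by linarith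
      rw [← Real.log_le_log_iff (by positivity) (by positivity),
        Real.log_mul (by positivity) (by positivity), Real.log_mul (by positivity) (by positivity),
        Real.log_pow, Real.log_pow, Real.log_pow, Real.log_pow]
      have hc := artanh_cmp ht0 hts hs1
      -- `N t = n s`
      have hr : (N : ℝ) * t = n * s := by
        rw [ht, hs, hM1, hM]; field_simp
      rcases eq_or_lt_of_le hx0 with hx0' | hx0'
      · have s0 : s = 0 := by rw [hs, ← hx0', zero_div]
        have t0 : t = 0 := by rw [ht, ← hx0', zero_div]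
        rw [s0, t0]; simp
      · have spos : 0 < s := by positivity
        have tpos : 0 < t := by positivity
        -- multiply by `t > 0`
        have h6 : t * ((N : ℝ) * (Real.log (1 + t) - Real.log (1 - t)))
            ≤ t * ((n : ℝ) * (Real.log (1 + s) - Real.log (1 - s))) := by
          have h7 : t * ((N : ℝ) * (Real.log (1 + t) - Real.log (1 - t)))
              = (n : ℝ) * (s * (Real.log (1 + t) - Real.log (1 - t))) := by
            linear_combination (Real.log (1 + t) - Real.log (1 - t)) * hr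
          have h8 := mul_le_mul_of_nonneg_left hc hn'.le
          linarith
        have h9 := le_of_mul_le_mul_left h6 tpos
        linarith
    have hMM : 0 ≤ M ^ n * (1 - M) ^ N := by positivity
    calc M ^ n * (1 - s) ^ n * ((1 - M) ^ N * (1 + t) ^ N)
        = (M ^ n * (1 - M) ^ N) * ((1 - s) ^ n * (1 + t) ^ N) := by ring
      _ ≤ (M ^ n * (1 - M) ^ N) * ((1 + s) ^ n * (1 - t) ^ N) :=
          mul_le_mul_of_nonneg_left key hMM
      _ = M ^ n * (1 + s) ^ n * ((1 - M) ^ N * (1 - t) ^ N) := by ring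

/-- the value of the tail at the mode of its derivative is at most one half -/
theorem bt_mode (n N : ℕ) (hn : 1 ≤ n) (hN : n ≤ N) :
    bt (n + N + 1) (n + 1) ((n : ℝ) / (n + N)) ≤ 1 / 2 := by
  have hn' : (0 : ℝ) < n := by exact_mod_cast hn
  have hnN : (n : ℝ) ≤ N := by exact_mod_cast hN
  have hN' : (0 : ℝ) < N := lt_of_lt_of_le hn' hnN
  have hsum : (0 : ℝ) < (n : ℝ) + N := by linarith
  set M : ℝ := (n : ℝ) / (n + N) with hM
  have hM0 : 0 < M := by positivity
  have h2M : M + M ≤ 1 := by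
    rw [hM, ← add_div, div_le_one hsum]; linarith
  set T : ℝ → ℝ := fun p => bt (n + N + 1) (n + 1) p with hT
  have hTd : ∀ p, HasDerivAt T (((n + N : ℕ) + 1 : ℝ) * bp (n + N) n p) p :=
    fun p => bt_hasDerivAt (n + N) n p
  have hmono : MonotoneOn (fun x => T (M + x) + T (M - x)) (Set.Icc 0 M) := by
    have hd : ∀ x, HasDerivAt (fun x => T (M + x) + T (M - x))
        (((n + N : ℕ) + 1 : ℝ) * bp (n + N) n (M + x)
          - ((n + N : ℕ) + 1 : ℝ) * bp (n + N) n (M - x)) x := by
      intro x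
      have h1 : HasDerivAt (fun x : ℝ => M + x) 1 x := by
        simpa using (hasDerivAt_id' x).const_add M
      have h2 : HasDerivAt (fun x : ℝ => M - x) (-1) x := by
        simpa using (hasDerivAt_id' x).const_sub M
      have h3 := (hTd (M + x)).comp x h1
      have h4 := (hTd (M - x)).comp x h2
      refine (h3.add h4).congr_deriv ?_
      ring
    apply monotoneOn_of_deriv_nonneg (convex_Icc 0 M)
    · exact fun x _ => (hd x).continuousAt.continuousWithinAt
    · exact fun x _ => (hd x).differentiableAt.differentiableWithinAt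
    · intro x hx
      rw [interior_Icc] at hx
      rw [(hd x).deriv, ← mul_sub]
      have h5 := mode_cmp n N hn hN hx.1.le hx.2.le
      rw [← hM] at h5
      have h6 : bp (n + N) n (M - x) ≤ bp (n + N) n (M + x) := by
        unfold bp
        rw [show n + N - n = N by omega, mul_assoc, mul_assoc]
        exact mul_le_mul_of_nonneg_left h5 (by positivity)
      have h7 : (0 : ℝ) ≤ ((n + N : ℕ) : ℝ) + 1 := by positivity
      exact mul_nonneg h7 (by linarith)
  have h8 := hmono (⟨le_refl 0, hM0.le⟩ : (0 : ℝ) ∈ Set.Icc 0 M) ⟨hM0.le, le_refl M⟩ hM0.le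
  simp only [add_zero, sub_zero, sub_self] at h8
  have h9 : T 0 = 0 := bt_at_zero _ _
  have h10 : T (M + M) ≤ 1 := bt_le_one _ _ (by linarith) h2M
  have h11 : T M ≤ 1 / 2 := by linarith
  exact h11

/-- binomial with integer mean `n`: `P(Bin(κ n, 1/κ) ≥ n+1) ≤ 1/2` -/
theorem bt_half_three (n κ : ℕ) (hn : 1 ≤ n) (hκ : 3 ≤ κ) :
    bt (κ * n) (n + 1) (1 / (κ : ℝ)) ≤ 1 / 2 := by
  have hge : 3 * n ≤ κ * n := Nat.mul_le_mul_right n hκ
  obtain ⟨N, hN⟩ : ∃ N, κ * n = n + N + 1 := ⟨κ * n - n - 1, by omega⟩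
  have hnN : n ≤ N := by omega
  rw [hN]
  have hn' : (0 : ℝ) < n := by exact_mod_cast hn
  have hκ' : (0 : ℝ) < κ := by exact_mod_cast (show 0 < κ by omega)
  have hN' : (0 : ℝ) ≤ N := by positivity
  have hR : (κ : ℝ) * n = n + N + 1 := by exact_mod_cast hN
  have hnNR : (n : ℝ) ≤ N := by exact_mod_cast hnN
  have hle : 1 / (κ : ℝ) ≤ (n : ℝ) / (n + N) := by
    rw [div_le_div_iff₀ hκ' (by linarith)]
    nlinarith
  have hle1 : (n : ℝ) / (n + N) ≤ 1 := by
    rw [div_le_one (by linarith)]; linarith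
  exact (bt_mono (n + N) n (by positivity) hle hle1).trans (bt_mode n N hn hnN)

theorem bt_big (D k : ℕ) (p : ℝ) : bt D (D + 1 + k) p = 0 := by
  induction D generalizing k with
  | zero => rw [show 0 + 1 + k = k + 1 by omega, bt_zero_succ]
  | succ D ih =>
    rw [show D + 1 + 1 + k = (D + 1 + k) + 1 by omega, bt_succ_succ, ih k,
      show D + 1 + k + 1 = D + 1 + (k + 1) by omega, ih (k + 1)]
    ring

theorem bt_refl (D m j : ℕ) (p : ℝ) (h : m + j = D + 1) : bt D m p + bt D j (1 - p) = 1 := by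
  induction D generalizing m j with
  | zero =>
    rcases Nat.eq_zero_or_pos m with h0 | h0
    · subst h0
      rw [show j = 0 + 1 by omega, bt_zero, bt_zero_succ]; ring
    · rw [show m = 0 + 1 by omega, show j = 0 by omega, bt_zero, bt_zero_succ]; ring
  | succ D ih =>
    cases m with
    | zero =>
      rw [show j = (D + 1) + 1 + 0 by omega, bt_zero, bt_big]; ring
    | succ m =>
      cases j with
      | zero => rw [show m + 1 = (D + 1) + 1 + 0 by omega, bt_zero, bt_big]; ring
      | succ j =>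
        have h1 := ih m (j + 1) (by omega)
        have h2 := ih (m + 1) j (by omega)
        rw [bt_succ_succ, bt_succ_succ]
        linear_combination p * h1 + (1 - p) * h2

/-- binomial with integer mean `n`: `P(Bin(κ n, 1/κ) ≥ n+1) ≤ 1/2` -/
theorem bt_half (n κ : ℕ) (hn : 1 ≤ n) (hκ : 2 ≤ κ) :
    bt (κ * n) (n + 1) (1 / (κ : ℝ)) ≤ 1 / 2 := by
  rcases hκ.eq_or_lt with h | h
  · subst h
    have h1 := bt_refl (2 * n) (n + 1) n (1 / ((2 : ℕ) : ℝ)) (by omega)
    have h2 := bt_sub (2 * n) n (1 / ((2 : ℕ) : ℝ))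
    have h3 := bp_nonneg (2 * n) n (p := 1 / ((2 : ℕ) : ℝ)) (by norm_num) (by norm_num)
    rw [show 1 - 1 / ((2 : ℕ) : ℝ) = 1 / ((2 : ℕ) : ℝ) by norm_num] at h1
    linarith
  · exact bt_half_three n κ hn h

end Pool.Agent.Helper72.BinHalf
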