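import Mathlib

/-!
# An idempotent ultrafilter on `ℕ` and two construction lemmas
-/

namespace Pool.Agent.Helper72.PairSum

open Filter

/-- An ultrafilter all of whose members are unbounded, idempotent for addition. -/
structure GoodU (S : Ultrafilter ℕ) : Prop where
  idem : ∀ p : ℕ → Prop, (∀ᶠ s in (S : Filter ℕ), p s) →
    ∀ᶠ s in (S : Filter ℕ), ∀ᶠ t in (S : Filter ℕ), p (s + t)
  large : ∀ N : ℕ, ∀ᶠ s in (S : Filter ℕ), N < s

theorem ultra_bool {α : Type*} (S : Ultrafilter α) (f : α → Bool) (k : Bool)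
    (h : ¬ ∀ᶠ s in (S : Filter α), f s = k) : ∀ᶠ s in (S : Filter α), f s = !k := by
  rw [← Ultrafilter.eventually_not] at h
  filter_upwards [h] with s hs
  cases hk : f s <;> cases k <;> simp_all

theorem ultra_bool_exists {α : Type*} (S : Ultrafilter α) (f : α → Bool) :
    ∃ k : Bool, ∀ᶠ s in (S : Filter α), f s = k := by
  by_cases h : ∀ᶠ s in (S : Filter α), f s = true
  · exact ⟨true, h⟩
  · exact ⟨false, by simpa using ultra_bool S f true h⟩

theorem ultra_bool_unique {α : Type*} (S : Ultrafilter α) (f : α → Bool) (k : Bool)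
    (h1 : ∀ᶠ s in (S : Filter α), f s = k) (h2 : ∀ᶠ s in (S : Filter α), f s = !k) : False := by
  obtain ⟨s, hs1, hs2⟩ := (h1.and h2).exists
  cases k <;> simp_all

attribute [local instance] Ultrafilter.add in
theorem exists_goodU : ∃ V : Ultrafilter ℕ, GoodU V ∧
    ∀ N : ℕ, 1 ≤ N → ∀ᶠ v in (V : Filter ℕ), N ∣ v := by
  obtain ⟨U, hU, -⟩ := Hindman.exists_idempotent_ultrafilter_le_FS (M := ℕ+) (fun _ => 1)
  have hidU : ∀ p : ℕ+ → Prop, (∀ᶠ s in (U : Filter ℕ+), p s) →
      ∀ᶠ s in (U : Filter ℕ+), ∀ᶠ t in (U : Filter ℕ+), p (s + t) := by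
    intro p hp
    have h2 : ∀ᶠ s in ((U + U : Ultrafilter ℕ+) : Filter ℕ+), p s := by rw [hU]; exact hp
    exact (Ultrafilter.eventually_add U U p).1 h2
  have hlU : ∀ N : ℕ, ∀ᶠ s : ℕ+ in (U : Filter ℕ+), N < (s : ℕ) := by
    intro N
    induction N with
    | zero => exact Eventually.of_forall fun s => s.pos
    | succ N ih =>
      by_contra hcon
      rw [← Ultrafilter.eventually_not] at hcon
      have he : ∀ᶠ s : ℕ+ in (U : Filter ℕ+), (s : ℕ) = N + 1 := by
        filter_upwards [hcon, ih] with s h1 h2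
        omega
      have h3 := hidU _ he
      obtain ⟨s, hs1, hs2⟩ := (h3.and he).exists
      obtain ⟨t, ht1, ht2⟩ := (hs1.and he).exists
      rw [PNat.add_coe] at ht1
      omega
  let V : Ultrafilter ℕ := U.map (fun x : ℕ+ => (x : ℕ))
  have hV : ∀ p : ℕ → Prop, (∀ᶠ s in (V : Filter ℕ), p s) ↔ ∀ᶠ s : ℕ+ in (U : Filter ℕ+), p (s : ℕ) := by
    intro p
    rfl
  have hid : ∀ p : ℕ → Prop, (∀ᶠ s in (V : Filter ℕ), p s) →
      ∀ᶠ s in (V : Filter ℕ), ∀ᶠ t in (V : Filter ℕ), p (s + t) := by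
    intro p hp
    rw [hV] at hp ⊢
    filter_upwards [hidU _ hp] with s hs
    rw [hV]
    filter_upwards [hs] with t ht
    rw [PNat.add_coe] at ht
    exact ht
  refine ⟨V, ⟨hid, fun N => by rw [hV]; exact hlU N⟩, ?_⟩
  intro N hN
  obtain ⟨r, hr⟩ : ∃ r : ℕ, ∀ᶠ v in (V : Filter ℕ), v % N = r := by
    have hfin : (Set.Iio N).Finite := Set.finite_Iio N
    have hmem : Set.Iio N ∈ (V.map (fun v => v % N)) := by
      rw [Ultrafilter.mem_map]
      exact Filter.univ_mem' fun v => Nat.mod_lt _ hN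
    obtain ⟨x, -, hx⟩ := Ultrafilter.eq_pure_of_finite_mem hfin hmem
    refine ⟨x, ?_⟩
    have : ({x} : Set ℕ) ∈ (V.map (fun v => v % N)) := by
      rw [hx]; simp
    rw [Ultrafilter.mem_map] at this
    exact this
  have h3 := hid _ hr
  obtain ⟨s, hs1, hs2⟩ := (h3.and hr).exists
  obtain ⟨t, ht1, ht2⟩ := (hs1.and hr).exists
  have hr0 : r = 0 := by
    have hrN : r < N := by rw [← hs2]; exact Nat.mod_lt _ hN
    rw [Nat.add_mod, hs2, ht2] at ht1
    by_contra hne
    rcases lt_or_ge (r + r) N with h | h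
    · rw [Nat.mod_eq_of_lt h] at ht1
      omega
    · rw [Nat.mod_eq_sub_mod h, Nat.mod_eq_of_lt (by omega)] at ht1
      omega
  subst hr0
  filter_upwards [hr] with v hv
  exact Nat.dvd_of_mod_eq_zero hv

theorem goodU_double {V : Ultrafilter ℕ} (hV : GoodU V) : GoodU (V.map (fun v => 2 * v)) := by
  have hm : ∀ p : ℕ → Prop, (∀ᶠ s in ((V.map (fun v => 2 * v) : Ultrafilter ℕ) : Filter ℕ), p s) ↔
      ∀ᶠ s in (V : Filter ℕ), p (2 * s) := by
    intro p
    rfl
  constructor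
  · intro p hp
    rw [hm] at hp ⊢
    filter_upwards [hV.idem _ hp] with s hs
    rw [hm]
    filter_upwards [hs] with t ht
    rwa [mul_add] at ht
  · intro N
    rw [hm]
    filter_upwards [hV.large N] with s hs
    omega

theorem goodU_double_ev {V : Ultrafilter ℕ} (p : ℕ → Prop) :
    (∀ᶠ s in ((V.map (fun v => 2 * v) : Ultrafilter ℕ) : Filter ℕ), p s) ↔
      ∀ᶠ s in (V : Filter ℕ), p (2 * s) := Iff.rfl

/-- The basic construction: an infinite sequence inside `A` whose pairwise sums are coloured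
`j` by `d`. -/
theorem build {S : Ultrafilter ℕ} (hS : GoodU S) (d : ℕ → Bool) (j : Bool) (x : ℕ)
    (A : ℕ → Prop) (hA : ∀ᶠ s in (S : Filter ℕ), A (x + s))
    (h2 : ∀ᶠ s in (S : Filter ℕ), d (2 * x + s) = j) :
    ∃ g : ℕ → ℕ, Function.Injective g ∧ (∀ i, A (g i)) ∧ ∀ i k, i ≠ k → d (g i + g k) = j := by
  let P : ℕ → Prop := fun y => A y ∧ ∀ᶠ s in (S : Filter ℕ), d (y + x + s) = j
  let r : ℕ → ℕ → Prop := fun a b => a ≠ b ∧ d (a + b) = j
  have : Std.Symm r := ⟨fun a b h => ⟨h.1.symm, by rw [add_comm]; exact h.2⟩⟩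
  obtain ⟨g, hg1, hg2⟩ := exists_seq_of_forall_finset_exists' P r (by
    intro Y hY
    have e1 : ∀ᶠ s in (S : Filter ℕ), ∀ᶠ t in (S : Filter ℕ), d (2 * x + (s + t)) = j :=
      hS.idem _ h2
    have e2 : ∀ᶠ s in (S : Filter ℕ), ∀ y ∈ Y, d (y + x + s) = j :=
      (Filter.eventually_all_finset Y).2 fun y hy => (hY y hy).2
    have e3 : ∀ᶠ s in (S : Filter ℕ), Y.sup id < s := hS.large _
    obtain ⟨s, ⟨⟨hs1, hs2⟩, hs3⟩, hs4⟩ := (((e1.and e2).and e3).and hA).exists
    refine ⟨x + s, ⟨hs4, ?_⟩, ?_⟩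
    · filter_upwards [hs1] with t ht
      rw [← ht]
      congr 1
      ring
    · intro y hy
      refine ⟨?_, ?_⟩
      · have : id y ≤ Y.sup id := Finset.le_sup (f := id) hy
        intro hxy
        have h5 : y = x + s := hxy
        simp only [id] at this
        omega
      · have := hs2 y hy
        rw [← this]
        congr 1
        ring)
  refine ⟨g, ?_, fun i => (hg1 i).1, ?_⟩
  · intro a b hab
    by_contra hne
    exact (hg2 hne).1 hab
  · intro i k hik
    exact (hg2 hik).2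

end Pool.Agent.Helper72.PairSum
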