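import Pool.Agent.Helper72.PairSumDefs
import Pool.Agent.Helper72.PairSumUltra

/-!
# The combinatorial core
-/

namespace Pool.Agent.Helper72.PairSum

open Filter

/-- `X` is an infinite set whose pairwise sums are coloured `j` by `d`. -/
def Hom (d : ℕ → Bool) (j : Bool) (X : ℕ → Bool) : Prop :=
  {n : ℕ | X n = true}.Infinite ∧ ∀ a b, a < b → X a = true → X b = true → d (a + b) = j

theorem Hom.sol {d : ℕ → Bool} {j : Bool} {X : ℕ → Bool} (h : Hom d j X) : SolHT d X :=
  ⟨h.1, j, h.2⟩

/-- The limit of a Boolean function along an ultrafilter. -/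
noncomputable def ulim {α : Type*} (S : Ultrafilter α) (f : α → Bool) : Bool := by
  classical exact decide (∀ᶠ s in (S : Filter α), f s = true)

theorem ulim_spec {α : Type*} (S : Ultrafilter α) (f : α → Bool) :
    ∀ᶠ s in (S : Filter α), f s = ulim S f := by
  classical
  unfold ulim
  by_cases h : ∀ᶠ s in (S : Filter α), f s = true
  · simp [h]
  · have := ultra_bool S f true h
    simpa [h] using this

theorem ulim_eq_iff {α : Type*} (S : Ultrafilter α) (f : α → Bool) (k : Bool) :
    ulim S f = k ↔ ∀ᶠ s in (S : Filter α), f s = k := by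
  constructor
  · intro h
    rw [← h]
    exact ulim_spec S f
  · intro h
    obtain ⟨s, hs1, hs2⟩ := (h.and (ulim_spec S f)).exists
    rw [← hs2, hs1]

theorem not_eq_of_ne {a b : Bool} (h : a ≠ b) : a = !b := by
  cases a <;> cases b <;> simp_all

theorem hom_of_ultra {S : Ultrafilter ℕ} (hS : GoodU S) (d : ℕ → Bool) (j : Bool) (y : ℕ)
    (A : ℕ → Prop) (hA : ∀ᶠ s in (S : Filter ℕ), A (y + s))
    (h2 : ∀ᶠ s in (S : Filter ℕ), d (2 * y + s) = j) :
    ∃ X : ℕ → Bool, Hom d j X ∧ ∀ a, X a = true → A a ∧ 0 < a := by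
  classical
  obtain ⟨g, hg1, hg2, hg3⟩ := build hS d j y (fun a => A a ∧ 0 < a) (by
    filter_upwards [hA, hS.large 0] with s h1 h2
    exact ⟨h1, by omega⟩) h2
  refine ⟨fun n => decide (n ∈ Set.range g), ⟨?_, ?_⟩, ?_⟩
  · have : {n : ℕ | decide (n ∈ Set.range g) = true} = Set.range g := by
      ext n; simp
    rw [this]
    exact Set.infinite_range_of_injective hg1
  · intro a b hab ha hb
    simp only [decide_eq_true_eq, Set.mem_range] at ha hb
    obtain ⟨i, rfl⟩ := ha
    obtain ⟨k, rfl⟩ := hb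
    exact hg3 i k (by rintro rfl; exact lt_irrefl _ hab)
  · intro a ha
    simp only [decide_eq_true_eq, Set.mem_range] at ha
    obtain ⟨i, rfl⟩ := ha
    exact hg2 i

theorem ext_of_ultra {S : Ultrafilter ℕ} (hS : GoodU S) (d : ℕ → Bool) (j : Bool) (x N : ℕ)
    (X : ℕ → Bool)
    (hF : ∀ a b, a < N → b < N → a < b → X a = true → X b = true → d (a + b) = j)
    (h2 : ∀ᶠ s in (S : Filter ℕ), d (2 * x + s) = j)
    (hf : ∀ f < N, X f = true → ∀ᶠ s in (S : Filter ℕ), d (f + x + s) = j) :
    ∃ H : ℕ → Bool, SolHT d H ∧ ∀ i < N, H i = X i := by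
  classical
  obtain ⟨g, hg1, hg2, hg3⟩ := build hS d j x
    (fun y => N ≤ y ∧ ∀ f < N, X f = true → d (f + y) = j) (by
    have e1 : ∀ᶠ s in (S : Filter ℕ), ∀ f ∈ Finset.range N, X f = true → d (f + x + s) = j := by
      rw [Filter.eventually_all_finset]
      intro f hfN
      by_cases hX : X f = true
      · filter_upwards [hf f (Finset.mem_range.1 hfN) hX] with s hs _
        exact hs
      · exact Eventually.of_forall fun s h => absurd h hX
    filter_upwards [e1, hS.large N] with s h1 h2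
    refine ⟨by omega, fun f hfN hX => ?_⟩
    rw [← add_assoc]
    exact h1 f (Finset.mem_range.2 hfN) hX) h2
  refine ⟨fun n => decide ((n < N ∧ X n = true) ∨ n ∈ Set.range g), ⟨?_, j, ?_⟩, ?_⟩
  · refine Set.Infinite.mono ?_ (Set.infinite_range_of_injective hg1)
    intro n hn
    have : decide ((n < N ∧ X n = true) ∨ n ∈ Set.range g) = true := by
      rw [decide_eq_true_eq]; exact Or.inr hn
    exact this
  · intro a b hab ha hb
    rw [decide_eq_true_eq] at ha hb
    rcases ha with ⟨ha, hXa⟩ | ⟨i, rfl⟩ <;> rcases hb with ⟨hb, hXb⟩ | ⟨k, rfl⟩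
    · exact hF a b ha hb hab hXa hXb
    · exact (hg2 k).2 a ha hXa
    · exact absurd (hg2 i).1 (by omega)
    · exact hg3 i k (by rintro rfl; exact lt_irrefl _ hab)
  · intro i hi
    by_cases hX : X i = true
    · simp [hi, hX]
    · have : ¬ i ∈ Set.range g := by
        rintro ⟨k, hk⟩
        have := (hg2 k).1
        omega
      simp only [Bool.not_eq_true] at hX
      rw [hX]
      simp only [decide_eq_false_iff_not]
      rintro (h | h)
      · exact absurd h.2 (by simp [hX])
      · exact this h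

/-- A map `Φ` between colourings which reduces differences to pair sums, in the form used below. -/
structure Setup (Φ : (ℕ → Bool) → (ℕ → Bool)) : Prop where
  cont : ∀ (c : ℕ → Bool) (n : ℕ), ∃ N : ℕ, ∀ c' : ℕ → Bool, (∀ i < N, c' i = c i) → Φ c' n = Φ c n
  acc : ∀ c X : ℕ → Bool, SolHT (Φ c) X → ∃ N : ℕ, ∀ c' : ℕ → Bool, (∀ i < N, c' i = c i) →
    (∀ G : ℕ → Bool, SolSubt c' G → ∀ x y, x < y → G x = true → G y = true → N ≤ y - x) →
    ∀ H : ℕ → Bool, (∀ i < N, H i = X i) → ¬ SolHT (Φ c') H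

/-- the three kinds of instances -/
def c0 : ℕ → Bool := fun _ => true

def st1 (m : ℕ) : ℕ → Bool := fun n => if n < m then true else decide (2 ^ m ∣ n)

def st2 (m l : ℕ) : ℕ → Bool := fun n =>
  if n < m then true else if n < m + l then decide (2 ^ m ∣ n) else decide (2 ^ (m + l) ∣ n)

theorem st1_agree {m i : ℕ} (h : i < m) : st1 m i = c0 i := by
  simp [st1, c0, h]

theorem st2_agree0 {m l i : ℕ} (h : i < m) : st2 m l i = c0 i := by
  simp [st2, c0, h]

theorem st2_agree1 {m l i : ℕ} (h : i < m + l) : st2 m l i = st1 m i := by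
  simp [st2, st1, h]

theorem tail_div {c G : ℕ → Bool} {K M : ℕ} (hc : ∀ n, K ≤ n → c n = decide (2 ^ M ∣ n))
    (hG : SolSubt c G) {x y : ℕ} (hxy : x < y) (hx : G x = true) (hy : G y = true) :
    2 ^ M ∣ y - x := by
  obtain ⟨hinf, k, hk⟩ := hG
  have hk' : k = true := by
    obtain ⟨r, hr⟩ : ∃ r, {n : ℕ | G n = true ∧ n % 2 ^ M = r}.Infinite := by
      by_contra hcon
      push Not at hcon
      apply hinf
      have : {n : ℕ | G n = true} ⊆
          ⋃ r ∈ Finset.range (2 ^ M), {n : ℕ | G n = true ∧ n % 2 ^ M = r} := by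
        intro n hn
        simp only [Set.mem_iUnion]
        refine ⟨n % 2 ^ M, Finset.mem_range.2 (Nat.mod_lt _ (by positivity)), hn, rfl⟩
      refine Set.Finite.subset ?_ this
      apply Set.Finite.biUnion (Finset.finite_toSet _)
      intro r _
      exact hcon r
    obtain ⟨a, ha, -⟩ := hr.exists_gt 0
    obtain ⟨b, hb, hab⟩ := hr.exists_gt (a + K)
    have h1 := hk a b (by omega) ha.1 hb.1
    have h2 := hc (b - a) (by omega)
    have h3 : 2 ^ M ∣ b - a := by
      have : a ≡ b [MOD 2 ^ M] := by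
        unfold Nat.ModEq
        rw [ha.2, hb.2]
      exact (Nat.modEq_iff_dvd' (by omega)).1 this
    rw [← h1]
    show c (b - a) = true
    rw [h2]
    simpa using h3
  subst hk'
  obtain ⟨z, hz, hyz⟩ := hinf.exists_gt (y + K)
  have hz' : G z = true := hz
  have h1 := hk x z (by omega) hx hz'
  have h2 := hk y z (by omega) hy hz'
  have h1' : c (z - x) = true := h1
  have h2' : c (z - y) = true := h2
  rw [hc _ (by omega), decide_eq_true_eq] at h1' h2'
  have : y - x = (z - x) - (z - y) := by omega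
  rw [this]
  exact Nat.dvd_sub h1' h2'

theorem st1_diff {m : ℕ} {G : ℕ → Bool} (hG : SolSubt (st1 m) G) (x y : ℕ) (hxy : x < y)
    (hx : G x = true) (hy : G y = true) : m ≤ y - x := by
  have h := tail_div (K := m) (M := m) (fun n hn => by simp [st1, not_lt.2 hn]) hG hxy hx hy
  have h2 := Nat.le_of_dvd (by omega) h
  have h3 : m < 2 ^ m := Nat.lt_two_pow_self
  omega

theorem st2_diff {m l : ℕ} {G : ℕ → Bool} (hG : SolSubt (st2 m l) G) (x y : ℕ) (hxy : x < y)
    (hx : G x = true) (hy : G y = true) : m + l ≤ y - x := by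
  have h := tail_div (K := m + l) (M := m + l) (fun n hn => by
    have h1 : ¬ n < m := by omega
    simp [st2, h1, not_lt.2 hn]) hG hxy hx hy
  have h2 := Nat.le_of_dvd (by omega) h
  have h3 : m + l < 2 ^ (m + l) := Nat.lt_two_pow_self
  omega

section Main

variable {Φ : (ℕ → Bool) → (ℕ → Bool)} (hΦ : Setup Φ)
include hΦ

theorem cont1 (n : ℕ) : ∀ᶠ m in atTop, Φ (st1 m) n = Φ c0 n := by
  obtain ⟨N, hN⟩ := hΦ.cont c0 n
  filter_upwards [eventually_ge_atTop N] with m hm
  exact hN _ fun i hi => st1_agree (by omega)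

theorem cont2 (m n : ℕ) : ∀ᶠ l in atTop, Φ (st2 m l) n = Φ (st1 m) n := by
  obtain ⟨N, hN⟩ := hΦ.cont (st1 m) n
  filter_upwards [eventually_ge_atTop N] with l hl
  exact hN _ fun i hi => st2_agree1 (by omega)

/-- General stage lemma. -/
theorem stage {S : Ultrafilter ℕ} (hS : GoodU S) {W : Ultrafilter ℕ} (hW : (W : Filter ℕ) ≤ atTop)
    (c : ℕ → Bool) (cs : ℕ → ℕ → Bool) (hcs : ∀ l i, i < l → cs l i = c i)
    (hdiff : ∀ l, ∀ G : ℕ → Bool, SolSubt (cs l) G → ∀ x y, x < y → G x = true → G y = true →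
      l ≤ y - x)
    (j : Bool) (X : ℕ → Bool) (hX : Hom (Φ c) j X) (x : ℕ)
    (h2 : ulim W (fun l => ulim S (fun s => Φ (cs l) (2 * x + s))) = j)
    (hf : ∀ f, X f = true → ulim W (fun l => ulim S (fun s => Φ (cs l) (f + x + s))) = j) :
    False := by
  obtain ⟨N, hN⟩ := hΦ.acc c X hX.sol
  rw [ulim_eq_iff] at h2
  have e1 : ∀ᶠ l in (W : Filter ℕ), ∀ f ∈ Finset.range N, X f = true →
      ulim S (fun s => Φ (cs l) (f + x + s)) = j := by
    rw [Filter.eventually_all_finset]
    intro f _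
    by_cases hXf : X f = true
    · have := hf f hXf
      rw [ulim_eq_iff] at this
      filter_upwards [this] with l hl _
      exact hl
    · exact Eventually.of_forall fun s h => absurd h hXf
  have e2 : ∀ᶠ l in (W : Filter ℕ), ∀ n ∈ Finset.range (2 * N), Φ (cs l) n = Φ c n := by
    rw [Filter.eventually_all_finset]
    intro n _
    obtain ⟨M, hM⟩ := hΦ.cont c n
    have : ∀ᶠ l in atTop, Φ (cs l) n = Φ c n := by
      filter_upwards [eventually_ge_atTop M] with l hl
      exact hM _ fun i hi => hcs l i (by omega)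
    exact this.filter_mono hW
  have e3 : ∀ᶠ l in (W : Filter ℕ), N ≤ l := (eventually_ge_atTop N).filter_mono hW
  obtain ⟨l, ⟨⟨⟨h2l, h1l⟩, hcl⟩, hNl⟩⟩ := (((h2.and e1).and e2).and e3).exists
  obtain ⟨H, hH, hHX⟩ := ext_of_ultra hS (Φ (cs l)) j x N X
    (fun a b ha hb hab hXa hXb => by
      rw [hcl _ (Finset.mem_range.2 (by omega))]
      exact hX.2 a b hab hXa hXb)
    ((ulim_eq_iff _ _ _).1 h2l)
    (fun f hfN hXf => (ulim_eq_iff _ _ _).1 (h1l f (Finset.mem_range.2 hfN) hXf))
  exact hN (cs l) (fun i hi => hcs l i (by omega))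
    (fun G hG x y hxy hx hy => le_trans hNl (hdiff l G hG x y hxy hx hy)) H hHX hH

theorem main {V : Ultrafilter ℕ} (hV : GoodU V)
    (hdvd : ∀ N : ℕ, 1 ≤ N → ∀ᶠ v in (V : Filter ℕ), N ∣ v) : False := by
  -- the ultrafilter for limits in `m`, `l`
  let W : Ultrafilter ℕ := hyperfilter ℕ
  have hW : (W : Filter ℕ) ≤ atTop := Nat.hyperfilter_le_atTop
  let V2 : Ultrafilter ℕ := V.map (fun v => 2 * v)
  have hV2 : GoodU V2 := goodU_double hV
  -- the colour
  let j : Bool := ulim V (fun v => Φ c0 v)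
  have hj : ∀ᶠ v in (V : Filter ℕ), Φ c0 v = j := ulim_spec V _
  -- limit colourings
  let al : Ultrafilter ℕ → ℕ → Bool := fun S y =>
    ulim W (fun m => ulim S (fun s => Φ (st1 m) (y + s)))
  let bm : ℕ → ℕ → Bool := fun m y => ulim W (fun l => ulim V (fun v => Φ (st2 m l) (y + v)))
  let be : ℕ → Bool := fun y => ulim W (fun m => bm m y)
  -- property (P)
  have hP : ∀ φ : ℕ → Bool, (∀ (X : ℕ → Bool) (x : ℕ), Hom (Φ c0) j X → φ (2 * x) = j →
      (∀ f, X f = true → φ (f + x) = j) → False) →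
      ∀ x, φ (2 * x) = j → ∀ᶠ h in (V : Filter ℕ), φ (h + x) = !j := by
    intro φ hφ x hx
    by_contra hcon
    have h1 := ultra_bool V _ _ hcon
    rw [Bool.not_not] at h1
    obtain ⟨X, hX, hXA⟩ := hom_of_ultra hV (Φ c0) j 0 (fun h => φ (h + x) = j)
      (by simpa using h1) (by simpa using hj)
    exact hφ X x hX hx fun f hf => (hXA f hf).1
  have hPal : ∀ S : Ultrafilter ℕ, GoodU S → ∀ x, al S (2 * x) = j →
      ∀ᶠ h in (V : Filter ℕ), al S (h + x) = !j := by
    intro S hS
    apply hP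
    intro X x hX hx hf
    exact stage hΦ hS hW c0 st1 (fun l i hi => st1_agree hi) (fun l G hG => st1_diff hG) j X hX x
      hx hf
  -- the two-step extension, in the form needed
  have hExt : ∀ (X : ℕ → Bool), Hom (Φ c0) j X → ∃ N : ℕ, ∀ᶠ m in (W : Filter ℕ), ∀ x : ℕ,
      bm m (2 * x) = j → (∀ f < N, X f = true → bm m (f + x) = j) → False := by
    intro X hX
    obtain ⟨N, hN⟩ := hΦ.acc c0 X hX.sol
    refine ⟨N, ?_⟩
    have e2 : ∀ᶠ m in (W : Filter ℕ), ∀ n ∈ Finset.range (2 * N), Φ (st1 m) n = Φ c0 n := by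
      rw [Filter.eventually_all_finset]
      intro n _
      exact (cont1 hΦ n).filter_mono hW
    have e3 : ∀ᶠ m in (W : Filter ℕ), N ≤ m := (eventually_ge_atTop N).filter_mono hW
    filter_upwards [e2, e3] with m hm2 hm3 x hx hf
    have hx' := (ulim_eq_iff _ _ _).1 hx
    have e4 : ∀ᶠ l in (W : Filter ℕ), ∀ f ∈ Finset.range N, X f = true →
        ulim V (fun s => Φ (st2 m l) (f + x + s)) = j := by
      rw [Filter.eventually_all_finset]
      intro f hfN
      by_cases hXf : X f = true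
      · have := (ulim_eq_iff _ _ _).1 (hf f (Finset.mem_range.1 hfN) hXf)
        filter_upwards [this] with l hl _
        exact hl
      · exact Eventually.of_forall fun s h => absurd h hXf
    have e5 : ∀ᶠ l in (W : Filter ℕ), ∀ n ∈ Finset.range (2 * N),
        Φ (st2 m l) n = Φ (st1 m) n := by
      rw [Filter.eventually_all_finset]
      intro n _
      exact (cont2 hΦ m n).filter_mono hW
    obtain ⟨l, ⟨⟨h2l, h1l⟩, hcl⟩⟩ := ((hx'.and e4).and e5).exists
    obtain ⟨H, hH, hHX⟩ := ext_of_ultra hV (Φ (st2 m l)) j x N X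
      (fun a b ha hb hab hXa hXb => by
        rw [hcl _ (Finset.mem_range.2 (by omega)), hm2 _ (Finset.mem_range.2 (by omega))]
        exact hX.2 a b hab hXa hXb)
      ((ulim_eq_iff _ _ _).1 h2l)
      (fun f hfN hXf => (ulim_eq_iff _ _ _).1 (h1l f (Finset.mem_range.2 hfN) hXf))
    exact hN (st2 m l) (fun i hi => st2_agree0 (by omega))
      (fun G hG x y hxy hx hy => le_trans hm3 (le_trans (Nat.le_add_right m l)
        (st2_diff hG x y hxy hx hy))) H hHX hH
  have hPbe : ∀ x, be (2 * x) = j → ∀ᶠ h in (V : Filter ℕ), be (h + x) = !j := by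
    apply hP
    intro X x hX hx hf
    obtain ⟨N, hN⟩ := hExt X hX
    have e4 : ∀ᶠ m in (W : Filter ℕ), ∀ f ∈ Finset.range N, X f = true → bm m (f + x) = j := by
      rw [Filter.eventually_all_finset]
      intro f hfN
      by_cases hXf : X f = true
      · have := (ulim_eq_iff _ _ _).1 (hf f hXf)
        filter_upwards [this] with l hl _
        exact hl
      · exact Eventually.of_forall fun s h => absurd h hXf
    obtain ⟨m, ⟨hm1, hm2⟩, hm3⟩ := ((hN.and e4).and ((ulim_eq_iff _ _ _).1 hx)).exists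
    exact hm1 x hm3 fun f hfN hXf => hm2 f (Finset.mem_range.2 hfN) hXf
  -- property (C2)
  have hC2 : ∀ S : Ultrafilter ℕ, GoodU S → ∀ (m x' y : ℕ) (κ : Bool), bm m (2 * x') = κ →
      ulim S (fun s => Φ (st1 m) (2 * y + s)) = κ →
      ∀ᶠ s in (S : Filter ℕ), bm m (y + s + x') = !κ := by
    intro S hS m x' y κ hb ha
    by_contra hcon
    have h1 := ultra_bool S _ _ hcon
    rw [Bool.not_not] at h1
    obtain ⟨X, hX, hXA⟩ := hom_of_ultra hS (Φ (st1 m)) κ y (fun h => bm m (h + x') = κ)
      h1 ((ulim_eq_iff _ _ _).1 ha)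
    exact stage hΦ hV hW (st1 m) (st2 m) (fun l i hi => st2_agree1 (by omega))
      (fun l G hG x y hxy hx hy => le_trans (Nat.le_add_left l m) (st2_diff hG x y hxy hx hy))
      κ X hX x' hb fun f hf => (hXA f hf).1
  -- find `w`, `X`
  obtain ⟨w, hw, X, hX, N, hN, hwX⟩ : ∃ w : ℕ, 1 ≤ w ∧ ∃ X : ℕ → Bool, Hom (Φ c0) j X ∧
      ∃ N : ℕ, (∀ᶠ m in (W : Filter ℕ), ∀ x : ℕ,
        bm m (2 * x) = j → (∀ f < N, X f = true → bm m (f + x) = j) → False) ∧
      ∀ f < N, X f = true → al V (2 * (w + f)) = !j := by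
    by_cases hi : ∃ w : ℕ, 1 ≤ w ∧ ∀ᶠ h in (V : Filter ℕ), al V (2 * (w + h)) = !j
    · obtain ⟨w, hw, hwh⟩ := hi
      obtain ⟨X, hX, hXA⟩ := hom_of_ultra hV (Φ c0) j 0 (fun h => al V (2 * (w + h)) = !j)
        (by simpa using hwh) (by simpa using hj)
      obtain ⟨N, hN⟩ := hExt X hX
      exact ⟨w, hw, X, hX, N, hN, fun f _ hf => (hXA f hf).1⟩
    · push Not at hi
      have hii : ∀ w : ℕ, 1 ≤ w → ∀ᶠ h in (V : Filter ℕ), ∀ᶠ h' in (V : Filter ℕ),
          al V (h' + (w + h)) = !j := by
        intro w hw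
        filter_upwards [hi w hw] with h hh
        have h1 := not_eq_of_ne hh
        rw [Bool.not_not] at h1
        exact hPal V hV (w + h) h1
      obtain ⟨X, hX, hXA⟩ := hom_of_ultra hV (Φ c0) j 0 (fun _ => True)
        (by simp) (by simpa using hj)
      obtain ⟨N, hN⟩ := hExt X hX
      have e1 : ∀ᶠ h in (V : Filter ℕ), ∀ f ∈ Finset.range N, X f = true →
          ∀ᶠ h' in (V : Filter ℕ), al V (h' + (2 * f + h)) = !j := by
        rw [Filter.eventually_all_finset]
        intro f hfN
        by_cases hXf : X f = true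
        · have := hii (2 * f) (by have := (hXA f hXf).2; omega)
          filter_upwards [this] with h hh _
          exact hh
        · exact Eventually.of_forall fun s h => absurd h hXf
      obtain ⟨h1, ⟨h1a, h1b⟩, h1c⟩ := ((e1.and (hdvd 2 (by norm_num))).and (hV.large 0)).exists
      have e2 : ∀ᶠ h' in (V : Filter ℕ), ∀ f ∈ Finset.range N, X f = true →
          al V (h' + (2 * f + h1)) = !j := by
        rw [Filter.eventually_all_finset]
        intro f hfN
        by_cases hXf : X f = true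
        · filter_upwards [h1a f hfN hXf] with h hh _
          exact hh
        · exact Eventually.of_forall fun s h => absurd h hXf
      obtain ⟨h2, h2a, h2b⟩ := (e2.and (hdvd 2 (by norm_num))).exists
      obtain ⟨a, rfl⟩ := h1b
      obtain ⟨b, rfl⟩ := h2b
      refine ⟨a + b, by omega, X, hX, N, hN, fun f hfN hXf => ?_⟩
      have := h2a f (Finset.mem_range.2 hfN) hXf
      rw [← this]
      congr 1
      ring
  -- find `x'`
  obtain ⟨x', hx'1, hx'2⟩ : ∃ x' : ℕ, be (2 * x') = (!j) ∧ al V2 (2 * x' + 4 * w) = !j := by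
    by_contra hcon
    push Not at hcon
    have hN0 : ∀ x' : ℕ, be (2 * x') = (!j) → al V2 (2 * x' + 4 * w) = j := by
      intro x' hx'
      have := not_eq_of_ne (hcon x' hx')
      simpa using this
    have step1 : ∀ x : ℕ, 2 ∣ x → be (2 * x) = j → al V2 (2 * (x + 4 * w)) = !j := by
      intro x hx2 hx
      by_contra hne
      have h1 := not_eq_of_ne hne
      rw [Bool.not_not] at h1
      have h2 := hPal V2 hV2 _ h1
      have h3 := hPbe x hx
      obtain ⟨h, ⟨ha, hb⟩, hc⟩ := ((h2.and h3).and (hdvd 2 (by norm_num))).exists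
      obtain ⟨x1, rfl⟩ := hx2
      obtain ⟨h1, rfl⟩ := hc
      have h4 := hN0 (h1 + x1) (by rw [← hb]; congr 1; ring)
      have h5 : al V2 (2 * (h1 + x1) + 4 * w) = !j := by
        rw [← ha]; congr 1; ring
      rw [h4] at h5
      exact absurd h5 (by cases j <;> simp)
    have step2 : ∀ x : ℕ, 2 ∣ x → be (2 * x) = j → be (2 * (x + 2 * w)) = j := by
      intro x hx2 hx
      by_contra hne
      have h1 := not_eq_of_ne hne
      have h2 := hN0 _ h1
      have h3 := step1 x hx2 hx
      have h4 : 2 * (x + 2 * w) + 4 * w = 2 * (x + 4 * w) := by ring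
      rw [h4, h3] at h2
      exact absurd h2 (by cases j <;> simp)
    have step2' : ∀ x : ℕ, 2 ∣ x → be (2 * x) = j → ∀ k : ℕ, be (2 * (x + 2 * w * k)) = j := by
      intro x hx2 hx k
      induction k with
      | zero => simpa using hx
      | succ k ih =>
        have := step2 (x + 2 * w * k) (by
          apply Nat.dvd_add hx2
          rw [mul_assoc]
          exact Nat.dvd_mul_right 2 _) ih
        rw [← this]
        congr 2
        ring
    have step3 : ∀ x : ℕ, 4 * w ∣ x → be (2 * x) = !j := by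
      intro x hx4
      by_contra hne
      have h1 := not_eq_of_ne hne
      rw [Bool.not_not] at h1
      have h2 : 2 ∣ x := dvd_trans ⟨2 * w, by ring⟩ hx4
      have h3 := step2' x h2 h1
      obtain ⟨h, ⟨ha, hb⟩, hc⟩ := (((hPbe x h1).and (hdvd (4 * w) (by omega))).and
        (hV.large x)).exists
      obtain ⟨k, hk⟩ : 4 * w ∣ h - x := Nat.dvd_sub hb hx4
      have h4 := h3 k
      have h5 : 2 * (x + 2 * w * k) = h + x := by
        have : h = x + 4 * w * k := by omega
        rw [this]; ring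
      rw [h5, ha] at h4
      exact absurd h4 (by cases j <;> simp)
    have step4 : ∀ k : ℕ, be (2 * (2 * w * k)) = !j := by
      intro k
      rcases Nat.even_or_odd' k with ⟨t, rfl | rfl⟩
      · exact step3 _ ⟨t, by ring⟩
      · by_contra hne
        have h1 := not_eq_of_ne hne
        rw [Bool.not_not] at h1
        have h2 := step2 _ ⟨w * (2 * t + 1), by ring⟩ h1
        have h3 := step3 (2 * w * (2 * t + 1) + 2 * w) ⟨t + 1, by ring⟩
        rw [h2] at h3
        exact absurd h3 (by cases j <;> simp)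
    have step5 : ∀ k : ℕ, al V2 (4 * w * (k + 1)) = j := by
      intro k
      have := hN0 _ (step4 k)
      rw [← this]
      congr 1
      ring
    have h6 : al V2 (2 * (4 * w)) = j := by
      rw [← step5 1]; congr 1; ring
    obtain ⟨h, ha, hb⟩ := ((hPal V2 hV2 _ h6).and (hdvd (4 * w) (by omega))).exists
    obtain ⟨k, rfl⟩ := hb
    have h7 := step5 k
    have h8 : 4 * w * k + 4 * w = 4 * w * (k + 1) := by ring
    rw [h8, h7] at ha
    exact absurd ha (by cases j <;> simp)
  -- the final contradiction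
  have e1 : ∀ᶠ m in (W : Filter ℕ), ∀ f ∈ Finset.range N, X f = true →
      ulim V (fun s => Φ (st1 m) (2 * (w + f) + s)) = !j := by
    rw [Filter.eventually_all_finset]
    intro f hfN
    by_cases hXf : X f = true
    · have := (ulim_eq_iff _ _ _).1 (hwX f (Finset.mem_range.1 hfN) hXf)
      filter_upwards [this] with l hl _
      exact hl
    · exact Eventually.of_forall fun s h => absurd h hXf
  obtain ⟨m, ⟨⟨hm1, hm2⟩, hm3⟩, hm4⟩ := (((hN.and e1).and ((ulim_eq_iff _ _ _).1 hx'1)).and
    ((ulim_eq_iff _ _ _).1 hx'2)).exists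
  have hA : ∀ᶠ v in (V : Filter ℕ), ∀ f ∈ Finset.range N, X f = true →
      bm m (f + (w + x' + v)) = j := by
    rw [Filter.eventually_all_finset]
    intro f hfN
    by_cases hXf : X f = true
    · have := hC2 V hV m x' (w + f) (!j) hm3 (hm2 f hfN hXf)
      rw [Bool.not_not] at this
      filter_upwards [this] with v hv _
      rw [← hv]
      congr 1
      ring
    · exact Eventually.of_forall fun s h => absurd h hXf
  have hB : ∀ᶠ v in (V : Filter ℕ), bm m (2 * (w + x' + v)) = j := by
    have := hC2 V2 hV2 m x' (2 * w + x') (!j) hm3 (by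
      rw [← hm4]
      congr 1
      funext s
      congr 1
      ring)
    rw [Bool.not_not] at this
    have h2 : ∀ᶠ v in (V : Filter ℕ), bm m (2 * w + x' + 2 * v + x') = j := this
    filter_upwards [h2] with v hv
    rw [← hv]
    congr 1
    ring
  obtain ⟨v, hv1, hv2⟩ := (hA.and hB).exists
  exact hm1 _ hv2 fun f hfN hXf => hv1 f (Finset.mem_range.2 hfN) hXf

end Main

theorem not_setup {Φ : (ℕ → Bool) → (ℕ → Bool)} (hΦ : Setup Φ) : False := by
  obtain ⟨V, hV, hdvd⟩ := exists_goodU
  exact main hΦ hV hdvd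

end Pool.Agent.Helper72.PairSum
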