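import Mathlib

/-!
# Ramsey-type problems for `x + y` and `y - x`, and reductions between them

A set of natural numbers is given by its characteristic function `ℕ → Bool`, and so is a
2-colouring of the natural numbers.
-/

namespace Pool.Agent.Helper72.PairSum

/-- `IsSol f c H`: the set `H` is infinite and `c` is constant on the values `f x y` for `x < y`
in `H`.  (The functions `f` used below are `x + y` and `y - x`, so `f x y` for `x < y` is the value
of `f` at the two-element set `{x, y}`.) -/
def IsSol (f : ℕ → ℕ → ℕ) (c H : ℕ → Bool) : Prop :=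
  {n : ℕ | H n = true}.Infinite ∧
    ∃ k : Bool, ∀ x y : ℕ, x < y → H x = true → H y = true → c (f x y) = k

/-- `H` is a solution of the instance `c` of Hindman's theorem for exact pair sums. -/
def SolHT (c H : ℕ → Bool) : Prop := IsSol (fun x y => x + y) c H

/-- `H` is a solution of the instance `c` of Ramsey's theorem for differences. -/
def SolSubt (c H : ℕ → Bool) : Prop := IsSol (fun x y => y - x) c H

/-- The characteristic function of a set, with values in `ℕ`, used as an oracle. -/
def bits (c : ℕ → Bool) : ℕ → ℕ := fun n => (c n).toNat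

/-- The join `X ⊕ Y` of two oracles. -/
def join (X Y : ℕ → ℕ) : ℕ → ℕ := fun n => if n % 2 = 0 then X (n / 2) else Y (n / 2)

/-- The Turing functionals: the smallest class of maps `Γ : (ℕ → ℕ) → (ℕ →. ℕ)`, from oracles to
partial functions, which contains the constant zero, the successor, the two projections of the
pairing function and the oracle query `Γ X n = X n`, and which is closed under pairing,
composition, primitive recursion and unbounded search.  (The clauses are those of Mathlib's
`Nat.RecursiveIn`, made uniform in the oracle.) -/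
inductive TuringFunctional : ((ℕ → ℕ) → (ℕ →. ℕ)) → Prop
  | zero : TuringFunctional fun _ _ => Part.some 0
  | succ : TuringFunctional fun _ n => Part.some (n + 1)
  | left : TuringFunctional fun _ n => Part.some (Nat.unpair n).1
  | right : TuringFunctional fun _ n => Part.some (Nat.unpair n).2
  | oracle : TuringFunctional fun X n => Part.some (X n)
  | pair {f h : (ℕ → ℕ) → (ℕ →. ℕ)} (hf : TuringFunctional f) (hh : TuringFunctional h) :
      TuringFunctional fun X n => (Nat.pair <$> f X n <*> h X n)
  | comp {f h : (ℕ → ℕ) → (ℕ →. ℕ)} (hf : TuringFunctional f) (hh : TuringFunctional h) :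
      TuringFunctional fun X n => h X n >>= f X
  | prec {f h : (ℕ → ℕ) → (ℕ →. ℕ)} (hf : TuringFunctional f) (hh : TuringFunctional h) :
      TuringFunctional fun X p =>
        let (a, n) := Nat.unpair p
        n.rec (f X a) fun y IH => do
          let i ← IH
          h X (Nat.pair a (Nat.pair y i))
  | rfind {f : (ℕ → ℕ) → (ℕ →. ℕ)} (hf : TuringFunctional f) :
      TuringFunctional fun X a =>
        Nat.rfind fun n => (fun m => m = 0) <$> f X (Nat.pair a n)

/-- The continuous partial functionals: each defined value `v` of `Γ X` at `n` depends only on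
finitely many values of the oracle `X`. -/
def FiniteUse (Γ : (ℕ → ℕ) → (ℕ →. ℕ)) : Prop :=
  ∀ (X : ℕ → ℕ) (n v : ℕ), v ∈ Γ X n →
    ∃ N : ℕ, ∀ Y : ℕ → ℕ, (∀ i < N, Y i = X i) → v ∈ Γ Y n

/-- `Computes Γ X A`: the functional `Γ` with oracle `X` computes (the characteristic function of)
the set `A`. -/
def Computes (Γ : (ℕ → ℕ) → (ℕ →. ℕ)) (X : ℕ → ℕ) (A : ℕ → Bool) : Prop :=
  ∀ n : ℕ, (A n).toNat ∈ Γ X n

/-- `ReducesVia C P Q`: there are functionals `Φ`, `Ψ` in the class `C` such that for every
instance `c` of `P`, `Φ` with oracle `c` computes an instance `d` of `Q`, and for every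
`Q`-solution `H` of `d`, `Ψ` with oracle `c ⊕ H` computes a `P`-solution of `c`.
Here `P c G` means that `G` is a `P`-solution of the instance `c`; every 2-colouring of `ℕ` is an
instance.  For `C = TuringFunctional` this is Weihrauch reducibility `P ≤_W Q`. -/
def ReducesVia (C : ((ℕ → ℕ) → (ℕ →. ℕ)) → Prop) (P Q : (ℕ → Bool) → (ℕ → Bool) → Prop) : Prop :=
  ∃ Φ Ψ : (ℕ → ℕ) → (ℕ →. ℕ), C Φ ∧ C Ψ ∧
    ∀ c : ℕ → Bool, ∃ d : ℕ → Bool, Computes Φ (bits c) d ∧
      ∀ H : ℕ → Bool, Q d H → ∃ G : ℕ → Bool, Computes Ψ (join (bits c) (bits H)) G ∧ P c G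

end Pool.Agent.Helper72.PairSum
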