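import Pool.Agent.Helper72.PairSumCore

/-!
# Turing functionals have finite use; the reduction gives a `Setup`
-/

namespace Pool.Agent.Helper72.PairSum

theorem finiteUse_prec_aux {f h : (ℕ → ℕ) → (ℕ →. ℕ)} (hf : FiniteUse f) (hh : FiniteUse h)
    (X : ℕ → ℕ) (a n : ℕ) : ∀ v, v ∈ (n.rec (f X a) fun y IH => do
          let i ← IH
          h X (Nat.pair a (Nat.pair y i)) : Part ℕ) →
    ∃ N : ℕ, ∀ Y : ℕ → ℕ, (∀ i < N, Y i = X i) → v ∈ (n.rec (f Y a) fun y IH => do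
          let i ← IH
          h Y (Nat.pair a (Nat.pair y i)) : Part ℕ) := by
  induction n with
  | zero => intro v hv; exact hf X a v hv
  | succ n ih =>
    intro v hv
    simp only [Part.bind_eq_bind, Part.mem_bind_iff] at hv ⊢
    obtain ⟨i, hi, hv⟩ := hv
    obtain ⟨N1, hN1⟩ := ih i hi
    obtain ⟨N2, hN2⟩ := hh X _ v hv
    refine ⟨max N1 N2, fun Y hY => ⟨i, ?_, ?_⟩⟩
    · exact hN1 Y fun i hi => hY i (lt_of_lt_of_le hi (le_max_left _ _))
    · exact hN2 Y fun i hi => hY i (lt_of_lt_of_le hi (le_max_right _ _))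

theorem finiteUse_rfind {f : (ℕ → ℕ) → (ℕ →. ℕ)} (hf : FiniteUse f) :
    FiniteUse fun X a => Nat.rfind fun n => (fun m => decide (m = 0)) <$> f X (Nat.pair a n) := by
  intro X a v hv
  rw [Nat.mem_rfind] at hv
  obtain ⟨h1, h2⟩ := hv
  simp only [Part.map_eq_map, Part.mem_map_iff] at h1 h2
  obtain ⟨u, hu, hu0⟩ := h1
  obtain ⟨N1, hN1⟩ := hf X _ u hu
  have h3 : ∀ k : ℕ, k ≤ v → ∃ N, ∀ m < k, ∃ b, decide (b = 0) = false ∧
      ∀ Y : ℕ → ℕ, (∀ i < N, Y i = X i) → b ∈ f Y (Nat.pair a m) := by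
    intro k
    induction k with
    | zero => intro _; exact ⟨0, fun m hm => absurd hm (Nat.not_lt_zero m)⟩
    | succ k ih =>
      intro hk
      obtain ⟨N, hN⟩ := ih (by omega)
      obtain ⟨b, hb, hb0⟩ := h2 (show k < v by omega)
      obtain ⟨N', hN'⟩ := hf X _ b hb
      refine ⟨max N N', fun m hm => ?_⟩
      rcases Nat.lt_succ_iff_lt_or_eq.1 hm with h | rfl
      · obtain ⟨b', hb', hb''⟩ := hN m h
        exact ⟨b', hb', fun Y hY => hb'' Y fun i hi => hY i (lt_of_lt_of_le hi (le_max_left _ _))⟩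
      · exact ⟨b, hb0, fun Y hY => hN' Y fun i hi => hY i (lt_of_lt_of_le hi (le_max_right _ _))⟩
  obtain ⟨N2, hN2⟩ := h3 v le_rfl
  refine ⟨max N1 N2, fun Y hY => ?_⟩
  rw [Nat.mem_rfind]
  refine ⟨?_, ?_⟩
  · simp only [Part.map_eq_map, Part.mem_map_iff]
    exact ⟨u, hN1 Y fun i hi => hY i (lt_of_lt_of_le hi (le_max_left _ _)), hu0⟩
  · intro m hm
    simp only [Part.map_eq_map, Part.mem_map_iff]
    obtain ⟨b, hb, hb'⟩ := hN2 m hm
    exact ⟨b, hb' Y fun i hi => hY i (lt_of_lt_of_le hi (le_max_right _ _)), hb⟩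

theorem TuringFunctional.finiteUse {Γ : (ℕ → ℕ) → (ℕ →. ℕ)} (h : TuringFunctional Γ) :
    FiniteUse Γ := by
  induction h with
  | zero => intro X n v hv; exact ⟨0, fun Y _ => hv⟩
  | succ => intro X n v hv; exact ⟨0, fun Y _ => hv⟩
  | left => intro X n v hv; exact ⟨0, fun Y _ => hv⟩
  | right => intro X n v hv; exact ⟨0, fun Y _ => hv⟩
  | oracle =>
    intro X n v hv
    refine ⟨n + 1, fun Y hY => ?_⟩
    rw [Part.mem_some_iff] at hv ⊢
    rw [hv, hY n (Nat.lt_succ_self n)]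
  | @pair f h _ _ hf hh =>
    intro X n v hv
    simp only [Seq.seq, Part.map_eq_map, Part.bind_eq_bind, Part.mem_bind_iff,
      Part.mem_map_iff] at hv ⊢
    obtain ⟨g, ⟨a, ha, rfl⟩, b, hb, hv⟩ := hv
    obtain ⟨N1, hN1⟩ := hf X n a ha
    obtain ⟨N2, hN2⟩ := hh X n b hb
    refine ⟨max N1 N2, fun Y hY => ⟨_, ⟨a, ?_, rfl⟩, b, ?_, hv⟩⟩
    · exact hN1 Y fun i hi => hY i (lt_of_lt_of_le hi (le_max_left _ _))
    · exact hN2 Y fun i hi => hY i (lt_of_lt_of_le hi (le_max_right _ _))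
  | @comp f h _ _ hf hh =>
    intro X n v hv
    simp only [Part.bind_eq_bind, Part.mem_bind_iff] at hv ⊢
    obtain ⟨a, ha, hv⟩ := hv
    obtain ⟨N1, hN1⟩ := hh X n a ha
    obtain ⟨N2, hN2⟩ := hf X a v hv
    refine ⟨max N1 N2, fun Y hY => ⟨a, ?_, ?_⟩⟩
    · exact hN1 Y fun i hi => hY i (lt_of_lt_of_le hi (le_max_left _ _))
    · exact hN2 Y fun i hi => hY i (lt_of_lt_of_le hi (le_max_right _ _))
  | @prec f h _ _ hf hh =>
    intro X n v hv
    exact finiteUse_prec_aux hf hh X _ _ v hv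
  | @rfind f _ hf => exact finiteUse_rfind hf

theorem toNat_inj {a b : Bool} (h : a.toNat = b.toNat) : a = b := by
  cases a <;> cases b <;> simp_all

theorem not_reducesVia_finiteUse : ¬ ReducesVia FiniteUse SolSubt SolHT := by
  rintro ⟨Φ, Ψ, hΦ, hΨ, hred⟩
  choose d hd hred' using hred
  refine not_setup (Φ := d) ⟨?_, ?_⟩
  · intro c n
    obtain ⟨N, hN⟩ := hΦ (bits c) n _ (hd c n)
    refine ⟨N, fun c' hc' => ?_⟩
    have h1 := hN (bits c') fun i hi => by simp [bits, hc' i hi]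
    exact toNat_inj (Part.mem_unique (hd c' n) h1)
  · intro c X hX
    obtain ⟨G, hG, hsol⟩ := hred' c X hX
    obtain ⟨a, ha, -⟩ := hsol.1.exists_gt 0
    obtain ⟨b, hb, hab⟩ := hsol.1.exists_gt a
    obtain ⟨N1, hN1⟩ := hΨ _ a _ (hG a)
    obtain ⟨N2, hN2⟩ := hΨ _ b _ (hG b)
    refine ⟨max (max N1 N2) (b + 1), fun c' hc' hdiff H hH hHsol => ?_⟩
    obtain ⟨G', hG', hsol'⟩ := hred' c' H hHsol
    have hagree : ∀ M : ℕ, M ≤ max (max N1 N2) (b + 1) →
        ∀ i < M, join (bits c') (bits H) i = join (bits c) (bits X) i := by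
      intro M hM i hi
      unfold join bits
      have : i / 2 ≤ i := Nat.div_le_self i 2
      rw [hc' (i / 2) (by omega), hH (i / 2) (by omega)]
    have h1 := hN1 _ (hagree N1 (le_trans (le_max_left _ _) (le_max_left _ _)))
    have h2 := hN2 _ (hagree N2 (le_trans (le_max_right _ _) (le_max_left _ _)))
    have ha' : G' a = true := by
      rw [toNat_inj (Part.mem_unique (hG' a) h1)]; exact ha
    have hb' : G' b = true := by
      rw [toNat_inj (Part.mem_unique (hG' b) h2)]; exact hb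
    have := hdiff G' hsol' a b hab ha' hb'
    have h3 : b + 1 ≤ max (max N1 N2) (b + 1) := le_max_right _ _
    omega

theorem ReducesVia.mono {C D : ((ℕ → ℕ) → (ℕ →. ℕ)) → Prop} (h : ∀ Γ, C Γ → D Γ)
    {P Q : (ℕ → Bool) → (ℕ → Bool) → Prop} (hr : ReducesVia C P Q) : ReducesVia D P Q := by
  obtain ⟨Φ, Ψ, hΦ, hΨ, hred⟩ := hr
  exact ⟨Φ, Ψ, h _ hΦ, h _ hΨ, hred⟩

end Pool.Agent.Helper72.PairSum
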